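import Pool.Agent.H9.UQL.Defs

/-!
# Project UQL, module BL1 (helper31)

Probability vectors with small variation on all finite sets avoiding a fixed finite set give Yu's
finite sets.
-/

set_option autoImplicit false

namespace Pool.Agent.H31.UQL

open Pool.Agent.H9.UQL

section N1

variable {X : Type}

/-- the `ℓ¹` norm of a finitely supported function -/
noncomputable def n1 (f : X →₀ ℝ) : ℝ := f.sum (fun _ a => |a|)

theorem n1_eq {f : X →₀ ℝ} {W : Finset X} (h : f.support ⊆ W) : n1 f = ∑ z ∈ W, |f z| :=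
  Finsupp.sum_of_support_subset f h _ (by simp)

theorem n1_add_le (f g : X →₀ ℝ) : n1 (f + g) ≤ n1 f + n1 g := by
  classical
  rw [n1_eq (W := f.support ∪ g.support) Finsupp.support_add,
    n1_eq (W := f.support ∪ g.support) Finset.subset_union_left,
    n1_eq (W := f.support ∪ g.support) Finset.subset_union_right, ← Finset.sum_add_distrib]
  exact Finset.sum_le_sum fun z _ => abs_add_le _ _

theorem n1_smul (c : ℝ) (f : X →₀ ℝ) : n1 (c • f) = |c| * n1 f := by
  rw [n1_eq (W := f.support) Finsupp.support_smul, n1_eq (W := f.support) subset_rfl,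
    Finset.mul_sum]
  exact Finset.sum_congr rfl fun z _ => by rw [Finsupp.smul_apply, smul_eq_mul, abs_mul]

theorem n1_single (x : X) : n1 (Finsupp.single x (1 : ℝ)) = 1 := by
  rw [n1, Finsupp.sum_single_index (by simp)]
  simp

theorem n1_of_nonneg {f : X →₀ ℝ} (h : ∀ z, 0 ≤ f z) : n1 f = f.sum (fun _ a => a) :=
  Finset.sum_congr rfl fun z _ => abs_of_nonneg (h z)

theorem sumf_eq {f : X →₀ ℝ} {W : Finset X} (h : f.support ⊆ W) :
    f.sum (fun _ a => a) = ∑ z ∈ W, f z :=
  Finsupp.sum_of_support_subset f h _ (by simp)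

end N1

/-- (b): removing the finite set `F` -/
theorem P1_extend {X : Type} [MetricSpace X] {R0 S θ : ℝ} (hR0 : 0 < R0) (hθ : 0 < θ)
    (x0 : X) (F : Finset X) (h : ∀ Z : Finset X, Disjoint Z F → P1 R0 S θ Z) :
    ∃ S' : ℝ, ∀ Z : Finset X, P1 R0 S' (2 * θ) Z := by
  classical
  set RF : ℝ := ∑ f ∈ F, dist f x0 with hRF
  have hF : ∀ f ∈ F, dist f x0 ≤ RF := fun f hf =>
    Finset.single_le_sum (f := fun f => dist f x0) (fun _ _ => dist_nonneg) hf
  set R1 : ℝ := 2 * R0 / θ with hR1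
  have hR1p : 0 < R1 := by positivity
  set t : X → ℝ := fun x => min 1 (max 0 (dist x x0 - RF) / R1) with ht
  have t0 : ∀ x, 0 ≤ t x := fun x => le_min zero_le_one (div_nonneg (le_max_left _ _) hR1p.le)
  have t1 : ∀ x, t x ≤ 1 := fun x => min_le_left _ _
  have tF : ∀ x, 0 < t x → x ∉ F := by
    intro x hx hxF
    have := hF x hxF
    have h2 : max 0 (dist x x0 - RF) = 0 := max_eq_left (by linarith)
    simp only [ht, h2, zero_div] at hx
    exact absurd hx (by simp)
  have tL : ∀ x y, dist x y ≤ R0 → |t x - t y| ≤ θ / 2 := by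
    intro x y hxy
    have h1 : |t x - t y| ≤ |max 0 (dist x x0 - RF) / R1 - max 0 (dist y x0 - RF) / R1| := by
      simp only [ht]
      refine (abs_min_sub_min_le_max (1 : ℝ) (max 0 (dist x x0 - RF) / R1) 1
        (max 0 (dist y x0 - RF) / R1)).trans ?_
      exact max_le (by simp) le_rfl
    have h2 : |max 0 (dist x x0 - RF) - max 0 (dist y x0 - RF)| ≤ |dist x x0 - dist y x0| := by
      refine (abs_max_sub_max_le_max (0 : ℝ) (dist x x0 - RF) 0 (dist y x0 - RF)).trans ?_
      exact max_le (by simp) (by rw [sub_sub_sub_cancel_right])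
    have h3 : |dist x x0 - dist y x0| ≤ dist x y := abs_dist_sub_le x y x0
    rw [← sub_div, abs_div, abs_of_pos hR1p] at h1
    have h4 : |max 0 (dist x x0 - RF) - max 0 (dist y x0 - RF)| / R1 ≤ R0 / R1 := by
      gcongr
      exact (h2.trans h3).trans hxy
    have h5 : R0 / R1 = θ / 2 := by rw [hR1]; field_simp
    linarith
  refine ⟨max S (RF + R1), fun Z => ?_⟩
  obtain ⟨ξ, h0, hS, hsum, hv⟩ := h (Z \ F) (Finset.sdiff_disjoint)
  have hZ : ∀ x ∈ Z, 0 < t x → x ∈ Z \ F := fun x hx htx =>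
    Finset.mem_sdiff.2 ⟨hx, tF x htx⟩
  set ξ' : X → (X →₀ ℝ) := fun x => (1 - t x) • Finsupp.single x0 1 + t x • ξ x with hξ'
  refine ⟨ξ', ?_, ?_, ?_, ?_⟩
  · intro x z
    simp only [hξ', Finsupp.add_apply, Finsupp.smul_apply, smul_eq_mul]
    refine add_nonneg (mul_nonneg (by linarith [t1 x]) ?_) (mul_nonneg (t0 x) (h0 x z))
    rw [Finsupp.single_apply]
    split_ifs <;> norm_num
  · intro x hx z hz
    simp only [hξ', Finsupp.add_apply, Finsupp.smul_apply, smul_eq_mul] at hz
    by_cases hz1 : t x * ξ x z = 0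
    · rw [hz1, add_zero] at hz
      have hz2 : (Finsupp.single x0 (1 : ℝ)) z ≠ 0 := right_ne_zero_of_mul hz
      have hz3 : z = x0 := by
        by_contra hne
        exact hz2 (Finsupp.single_eq_of_ne hne)
      have hz4 : t x ≠ 1 := by
        intro h1
        apply left_ne_zero_of_mul hz
        rw [h1, sub_self]
      have hz5 : t x < 1 := lt_of_le_of_ne (t1 x) hz4
      have hz6 : max 0 (dist x x0 - RF) / R1 < 1 := by
        by_contra hcon
        rw [not_lt] at hcon
        exact hz4 (min_eq_left hcon)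
      rw [div_lt_one hR1p] at hz6
      have hz7 : dist x x0 - RF < R1 := lt_of_le_of_lt (le_max_right _ _) hz6
      rw [hz3, dist_comm]
      exact le_max_of_le_right (by linarith)
    · have ht' : 0 < t x := lt_of_le_of_ne (t0 x) (Ne.symm (left_ne_zero_of_mul hz1))
      exact le_max_of_le_left (hS x (hZ x hx ht') z (right_ne_zero_of_mul hz1))
  · intro x hx
    simp only [hξ']
    rw [Finsupp.sum_add_index' (by simp) (by simp), Finsupp.sum_smul_index' (by simp),
      Finsupp.sum_smul_index' (by simp), Finsupp.sum_single_index (by simp)]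
    simp only [smul_eq_mul, mul_one]
    rcases eq_or_lt_of_le (t0 x) with h1 | h1
    · rw [← h1]; simp
    · have := hsum x (hZ x hx h1)
      rw [Finsupp.sum] at this ⊢
      rw [← Finset.mul_sum, this]; ring
  · intro x hx y hy hxy
    change n1 (ξ' x - ξ' y) ≤ 2 * θ
    have hn : ∀ x ∈ Z, 0 < t x → n1 (ξ x) = 1 := fun x hx htx => by
      rw [n1_of_nonneg (h0 x)]; exact hsum x (hZ x hx htx)
    have hd : n1 (Finsupp.single x0 (1 : ℝ)) = 1 := n1_single x0
    have hneg : ∀ f : X →₀ ℝ, n1 (-f) = n1 f := fun f => by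
      rw [← neg_one_smul ℝ f, n1_smul]; simp
    rcases eq_or_lt_of_le (t0 x) with hx0 | hx0
    · rcases eq_or_lt_of_le (t0 y) with hy0 | hy0
      · have : ξ' x - ξ' y = 0 := by simp [hξ', ← hx0, ← hy0]
        rw [this]; simp [n1]; positivity
      · have e : ξ' x - ξ' y = t y • (Finsupp.single x0 1) + (-(t y)) • ξ y := by
          simp only [hξ', ← hx0, sub_zero, one_smul, zero_smul, add_zero]
          rw [sub_smul, neg_smul, one_smul]; abel
        rw [e]
        refine (n1_add_le _ _).trans ?_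
        rw [n1_smul, n1_smul, hd, hn y hy hy0, abs_neg, abs_of_nonneg (t0 y)]
        have := tL x y hxy
        rw [← hx0, zero_sub, abs_neg, abs_of_nonneg (t0 y)] at this
        linarith
    · rcases eq_or_lt_of_le (t0 y) with hy0 | hy0
      · have e : ξ' x - ξ' y = (-(t x)) • (Finsupp.single x0 1) + (t x) • ξ x := by
          simp only [hξ', ← hy0, sub_zero, one_smul, zero_smul, add_zero]
          rw [sub_smul, neg_smul, one_smul]; abel
        rw [e]
        refine (n1_add_le _ _).trans ?_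
        rw [n1_smul, n1_smul, hd, hn x hx hx0, abs_neg, abs_of_nonneg (t0 x)]
        have := tL x y hxy
        rw [← hy0, sub_zero, abs_of_nonneg (t0 x)] at this
        linarith
      · have e : ξ' x - ξ' y = (t y - t x) • (Finsupp.single x0 1) +
            (t x • (ξ x - ξ y) + (t x - t y) • ξ y) := by
          simp only [hξ', sub_smul, smul_sub, one_smul]; abel
        rw [e]
        refine (n1_add_le _ _).trans ?_
        have h6 := n1_add_le (t x • (ξ x - ξ y)) ((t x - t y) • ξ y)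
        rw [n1_smul, n1_smul, hn y hy hy0] at h6
        rw [n1_smul, hd]
        have h7 : n1 (ξ x - ξ y) ≤ θ := hv x (hZ x hx hx0) y (hZ y hy hy0) hxy
        have h8 := tL x y hxy
        have h9 : |t y - t x| ≤ θ / 2 := by rw [abs_sub_comm]; exact h8
        have h10 : |t x| * n1 (ξ x - ξ y) ≤ θ := by
          rw [abs_of_nonneg (t0 x)]
          calc t x * n1 (ξ x - ξ y) ≤ 1 * θ := by
                apply mul_le_mul (t1 x) h7 _ zero_le_one
                exact Finset.sum_nonneg fun _ _ => abs_nonneg _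
            _ = θ := one_mul _
        linarith

/-! ### rounding -/

section Round

variable {X : Type}

/-- the finite set of all `(z, j)` with `1 ≤ j ≤ a z`, for `a` supported in `W` -/
noncomputable def gr (W : Finset X) (a : X → ℕ) : Finset (X × ℕ) :=
  (W.sigma fun z => Finset.Icc 1 (a z)).map (Equiv.sigmaEquivProd X ℕ).toEmbedding

theorem mem_gr {W : Finset X} {a : X → ℕ} (h : ∀ z, z ∉ W → a z = 0) (p : X × ℕ) :
    p ∈ gr W a ↔ 1 ≤ p.2 ∧ p.2 ≤ a p.1 := by
  simp only [gr, Finset.mem_map_equiv, Finset.mem_sigma, Finset.mem_Icc]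
  constructor
  · intro hp
    exact hp.2
  · intro hp
    refine ⟨?_, hp⟩
    by_contra hW
    have := h _ hW
    have h2 : p.2 ≤ a p.1 := hp.2
    have h3 : a p.1 = 0 := this
    omega

theorem card_sigma_map (W : Finset X) (f : X → Finset ℕ) :
    ((W.sigma f).map (Equiv.sigmaEquivProd X ℕ).toEmbedding).card = ∑ z ∈ W, (f z).card := by
  rw [Finset.card_map, Finset.card_sigma]

open Classical in
theorem card_sdiff_gr {W : Finset X} {a b : X → ℕ} (ha : ∀ z, z ∉ W → a z = 0)
    (hb : ∀ z, z ∉ W → b z = 0) : (gr W a \ gr W b).card = ∑ z ∈ W, (a z - b z) := by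
  have e : gr W a \ gr W b =
      (W.sigma fun z => Finset.Ioc (b z) (a z)).map (Equiv.sigmaEquivProd X ℕ).toEmbedding := by
    ext p
    rw [Finset.mem_sdiff, mem_gr ha, mem_gr hb, Finset.mem_map_equiv, Finset.mem_sigma,
      Finset.mem_Ioc]
    constructor
    · rintro ⟨h1, h2⟩
      refine ⟨?_, ?_, h1.2⟩
      · by_contra hW
        have h3 : a p.1 = 0 := ha _ hW
        omega
      · change b p.1 < p.2
        by_contra h3
        exact h2 ⟨h1.1, by omega⟩
    · rintro ⟨_, h1, h2⟩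
      change b p.1 < p.2 at h1
      change p.2 ≤ a p.1 at h2
      exact ⟨⟨by omega, h2⟩, fun h => by omega⟩
  rw [e, card_sigma_map]
  exact Finset.sum_congr rfl fun z _ => Nat.card_Ioc _ _

open Classical in
theorem card_inter_gr {W : Finset X} {a b : X → ℕ} (ha : ∀ z, z ∉ W → a z = 0)
    (hb : ∀ z, z ∉ W → b z = 0) : (gr W a ∩ gr W b).card = ∑ z ∈ W, min (a z) (b z) := by
  have e : gr W a ∩ gr W b =
      (W.sigma fun z => Finset.Icc 1 (min (a z) (b z))).map
        (Equiv.sigmaEquivProd X ℕ).toEmbedding := by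
    ext p
    rw [Finset.mem_inter, mem_gr ha, mem_gr hb, Finset.mem_map_equiv, Finset.mem_sigma,
      Finset.mem_Icc]
    constructor
    · rintro ⟨h1, h2⟩
      refine ⟨?_, h1.1, le_min h1.2 h2.2⟩
      by_contra hW
      have h3 : a p.1 = 0 := ha _ hW
      omega
    · rintro ⟨_, h1, h2⟩
      exact ⟨⟨h1, h2.trans (min_le_left _ _)⟩, ⟨h1, h2.trans (min_le_right _ _)⟩⟩
  rw [e, card_sigma_map]
  exact Finset.sum_congr rfl fun z _ => by rw [Nat.card_Icc]; omega

/-- a finitely supported function has a common graph set -/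
theorem gr_eq_gr {W W' : Finset X} {a : X → ℕ} (ha : ∀ z, z ∉ W → a z = 0)
    (ha' : ∀ z, z ∉ W' → a z = 0) : gr W a = gr W' a := by
  ext p
  rw [mem_gr ha, mem_gr ha']

open Classical in
/-- the rounded function -/
noncomputable def rnd (M : ℕ) (x : X) (f : X →₀ ℝ) (z : X) : ℕ :=
  ⌊(M : ℝ) * f z⌋₊ + if z = x then 1 else 0

open Classical in
theorem rnd_zero {M : ℕ} {x : X} {f : X →₀ ℝ} {z : X} (h : z ∉ insert x f.support) :
    rnd M x f z = 0 := by
  rw [Finset.mem_insert, not_or, Finsupp.notMem_support_iff] at h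
  simp [rnd, h.1, h.2]

open Classical in
theorem rnd_sub_le (M : ℕ) (x y : X) (f g : X →₀ ℝ) (hf : ∀ z, 0 ≤ f z) (hg : ∀ z, 0 ≤ g z)
    (z : X) : (((rnd M x f z - rnd M y g z : ℕ) : ℝ)) ≤
      (M : ℝ) * max (f z - g z) 0 + (if f z ≠ 0 ∧ g z < f z then 1 else 0) +
        (if z = x then 1 else 0) := by
  have hM : (0 : ℝ) ≤ M := Nat.cast_nonneg M
  have h1 : (rnd M x f z - rnd M y g z : ℕ) ≤
      (⌊(M : ℝ) * f z⌋₊ - ⌊(M : ℝ) * g z⌋₊) + (if z = x then 1 else 0) := by
    simp only [rnd]; omega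
  have h2 : (((rnd M x f z - rnd M y g z : ℕ) : ℝ)) ≤
      ((⌊(M : ℝ) * f z⌋₊ - ⌊(M : ℝ) * g z⌋₊ : ℕ) : ℝ) + (if z = x then 1 else 0) := by
    exact_mod_cast h1
  refine h2.trans (add_le_add_left ?_ _)
  rcases le_or_gt (f z) (g z) with h3 | h3
  · have h4 : ⌊(M : ℝ) * f z⌋₊ ≤ ⌊(M : ℝ) * g z⌋₊ :=
      Nat.floor_le_floor (mul_le_mul_of_nonneg_left h3 hM)
    rw [Nat.sub_eq_zero_of_le h4, max_eq_right (by linarith), if_neg (fun h => absurd h.2 (not_lt.2 h3))]
    simp
  · have h4 : ⌊(M : ℝ) * g z⌋₊ ≤ ⌊(M : ℝ) * f z⌋₊ :=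
      Nat.floor_le_floor (mul_le_mul_of_nonneg_left h3.le hM)
    rw [Nat.cast_sub h4, max_eq_left (by linarith), if_pos ⟨by linarith [hg z], h3⟩]
    have h5 := Nat.floor_le (mul_nonneg hM (hf z))
    have h6 := Nat.lt_floor_add_one ((M : ℝ) * g z)
    linarith

open Classical in
theorem le_min_rnd (M : ℕ) (x y : X) (f g : X →₀ ℝ) (z : X) : (M : ℝ) * f z - (M : ℝ) * |f z - g z| - (if f z ≠ 0 then 1 else 0) ≤
      ((min (rnd M x f z) (rnd M y g z) : ℕ) : ℝ) := by
  have hM : (0 : ℝ) ≤ M := Nat.cast_nonneg M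
  by_cases h : f z = 0
  · rw [h, if_neg (by simp)]
    have : (0 : ℝ) ≤ ((min (rnd M x f z) (rnd M y g z) : ℕ) : ℝ) := Nat.cast_nonneg _
    have h2 : 0 ≤ (M : ℝ) * |0 - g z| := mul_nonneg hM (abs_nonneg _)
    linarith
  · rw [if_pos h]
    have h1 : ((⌊(M : ℝ) * f z⌋₊ : ℕ) : ℝ) ≤ (rnd M x f z : ℝ) := by
      exact_mod_cast Nat.le_add_right _ _
    have h2 : ((⌊(M : ℝ) * g z⌋₊ : ℕ) : ℝ) ≤ (rnd M y g z : ℝ) := by
      exact_mod_cast Nat.le_add_right _ _
    have h3 := Nat.lt_floor_add_one ((M : ℝ) * f z)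
    have h4 := Nat.lt_floor_add_one ((M : ℝ) * g z)
    have h5 : (M : ℝ) * (f z - g z) ≤ (M : ℝ) * |f z - g z| :=
      mul_le_mul_of_nonneg_left (le_abs_self _) hM
    have h6 : 0 ≤ (M : ℝ) * |f z - g z| := mul_nonneg hM (abs_nonneg _)
    rw [Nat.cast_min]
    refine le_min ?_ ?_
    · linarith
    · linarith

open Classical in
/-- the two estimates -/
theorem main_est (M V : ℕ) (θ : ℝ) (x y : X) (f g : X →₀ ℝ) (hf : ∀ z, 0 ≤ f z)
    (hg : ∀ z, 0 ≤ g z) (hf1 : f.sum (fun _ a => a) = 1)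
    (hfV : f.support.card ≤ V) (hgV : g.support.card ≤ V) (hfg : n1 (f - g) ≤ θ) :
    let A := gr (insert x f.support) (rnd M x f)
    let B := gr (insert y g.support) (rnd M y g)
    (((A \ B) ∪ (B \ A)).card : ℝ) ≤ M * θ + 2 * V + 2 ∧
      (M : ℝ) - M * θ - V ≤ ((A ∩ B).card : ℝ) := by
  intro A B
  have hM : (0 : ℝ) ≤ M := Nat.cast_nonneg M
  set W : Finset X := insert x f.support ∪ insert y g.support with hW
  have ha : ∀ z, z ∉ W → rnd M x f z = 0 := fun z hz =>
    rnd_zero fun h => hz (Finset.mem_union_left _ h)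
  have hb : ∀ z, z ∉ W → rnd M y g z = 0 := fun z hz =>
    rnd_zero fun h => hz (Finset.mem_union_right _ h)
  have hA : A = gr W (rnd M x f) := gr_eq_gr (fun z hz => rnd_zero hz) ha
  have hB : B = gr W (rnd M y g) := gr_eq_gr (fun z hz => rnd_zero hz) hb
  have hfW : f.support ⊆ W :=
    (Finset.subset_insert _ _).trans Finset.subset_union_left
  have hgW : g.support ⊆ W :=
    (Finset.subset_insert _ _).trans Finset.subset_union_right
  have hdW : (f - g).support ⊆ W := by
    intro z hz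
    rw [Finsupp.mem_support_iff, Finsupp.sub_apply] at hz
    by_cases h : f z = 0
    · apply hgW
      rw [Finsupp.mem_support_iff]
      intro h2
      rw [h, h2, sub_zero] at hz
      exact hz rfl
    · exact hfW (Finsupp.mem_support_iff.2 h)
  have hn : n1 (f - g) = ∑ z ∈ W, |f z - g z| := n1_eq hdW
  have cnt : ∀ (h : X →₀ ℝ) (P : X → Prop) [DecidablePred P] (_ : ∀ z, P z → h z ≠ 0)
      (_ : h.support.card ≤ V), ∑ z ∈ W, (if P z then (1 : ℝ) else 0) ≤ V := by
    intro h P _ hP hh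
    rw [← Finset.sum_filter, Finset.sum_const, nsmul_eq_mul, mul_one]
    have : (W.filter P).card ≤ h.support.card := Finset.card_le_card fun z hz => by
      rw [Finset.mem_filter] at hz
      exact Finsupp.mem_support_iff.2 (hP z hz.2)
    exact_mod_cast this.trans hh
  have one : ∀ x : X, ∑ z ∈ W, (if z = x then (1 : ℝ) else 0) ≤ 1 := by
    intro x
    rw [Finset.sum_ite_eq']
    split_ifs <;> norm_num
  constructor
  · have h1 : (((A \ B) ∪ (B \ A)).card : ℝ) ≤ ((A \ B).card : ℝ) + ((B \ A).card : ℝ) := by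
      exact_mod_cast Finset.card_union_le _ _
    refine h1.trans ?_
    rw [hA, hB, card_sdiff_gr ha hb, card_sdiff_gr hb ha, Nat.cast_sum, Nat.cast_sum]
    have h2 := Finset.sum_le_sum fun z (_ : z ∈ W) => rnd_sub_le M x y f g hf hg z
    have h3 := Finset.sum_le_sum fun z (_ : z ∈ W) => rnd_sub_le M y x g f hg hf z
    rw [Finset.sum_add_distrib, Finset.sum_add_distrib, ← Finset.mul_sum] at h2 h3
    have h4 := cnt f (fun z => f z ≠ 0 ∧ g z < f z) (fun z h => h.1) hfV
    have h5 := cnt g (fun z => g z ≠ 0 ∧ f z < g z) (fun z h => h.1) hgV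
    have h6 := one x
    have h7 := one y
    have h8 : (M : ℝ) * ∑ z ∈ W, max (f z - g z) 0 + (M : ℝ) * ∑ z ∈ W, max (g z - f z) 0 ≤
        M * θ := by
      rw [← mul_add, ← Finset.sum_add_distrib]
      refine mul_le_mul_of_nonneg_left ?_ hM
      refine le_trans (le_of_eq ?_) (hn ▸ hfg)
      refine Finset.sum_congr rfl fun z _ => ?_
      rcases le_total (f z) (g z) with h | h
      · rw [max_eq_right (by linarith), max_eq_left (by linarith), abs_of_nonpos (by linarith)]
        ring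
      · rw [max_eq_left (by linarith), max_eq_right (by linarith), abs_of_nonneg (by linarith)]
        ring
    linarith
  · rw [hA, hB, card_inter_gr ha hb, Nat.cast_sum]
    have h2 := Finset.sum_le_sum fun z (_ : z ∈ W) => le_min_rnd M x y f g z
    refine le_trans ?_ h2
    rw [Finset.sum_sub_distrib, Finset.sum_sub_distrib, ← Finset.mul_sum, ← Finset.mul_sum,
      ← hn, ← sumf_eq hfW, hf1]
    have h4 := cnt f (fun z => f z ≠ 0) (fun z h => h) hfV
    have h5 : (M : ℝ) * n1 (f - g) ≤ M * θ := mul_le_mul_of_nonneg_left hfg hM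
    linarith

end Round

/-- ultrafilter limits of functions with finite range -/
theorem ultra_const {ι β : Type*} (U : Ultrafilter ι) (f : ι → β) (T : Set β) (hT : T.Finite)
    (h : ∀ᶠ i in (U : Filter ι), f i ∈ T) : ∃ c ∈ T, ∀ᶠ i in (U : Filter ι), f i = c := by
  have h1 : (⋃ c ∈ T, {i | f i = c}) ∈ U := by
    refine Filter.mem_of_superset h fun i hi => ?_
    simp only [Set.mem_iUnion]
    exact ⟨f i, hi, rfl⟩
  exact (Ultrafilter.finite_biUnion_mem_iff hT).1 h1

open Classical in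
/-- (a): rounding and compactness -/
theorem yu_of_P1 {X : Type} [MetricSpace X] (hX : BG X) {R0 S θ ε0 : ℝ}
    (hε0 : 0 < ε0) (hθ1 : θ ≤ 1 / 2) (hθ2 : θ ≤ ε0 / 8)
    (h : ∀ Z : Finset X, P1 R0 S θ Z) : YuA X R0 ε0 := by
  obtain ⟨V, hV⟩ := hX S
  set M : ℕ := ⌈(2 * V + 2 + ε0 * V) * (8 / (3 * ε0))⌉₊ + 1 with hM
  have hMp : 2 * V + 2 + ε0 * V < 3 / 8 * ε0 * M := by
    have h1 := Nat.le_ceil ((2 * V + 2 + ε0 * V) * (8 / (3 * ε0)))
    have h2 : ((2 * V + 2 + ε0 * V) * (8 / (3 * ε0))) < M := by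
      rw [hM]; push_cast; linarith
    have h3 : (2 * V + 2 + ε0 * V) * (8 / (3 * ε0)) * (3 / 8 * ε0) < M * (3 / 8 * ε0) :=
      mul_lt_mul_of_pos_right h2 (by positivity)
    have h4 : (2 * V + 2 + ε0 * V) * (8 / (3 * ε0)) * (3 / 8 * ε0) = 2 * V + 2 + ε0 * V := by
      field_simp
    linarith
  choose ξ h0 hS hsum hv using h
  have hcard : ∀ Z : Finset X, ∀ x ∈ Z, (ξ Z x).support.card ≤ V := by
    intro Z x hx
    obtain ⟨hfin, hc⟩ := hV x
    refine le_trans ?_ hc
    rw [← Set.ncard_coe_finset]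
    refine Set.ncard_le_ncard ?_ hfin
    intro z hz
    rw [Metric.mem_closedBall]
    exact hS Z x hx z (Finsupp.mem_support_iff.1 hz)
  set A : Finset X → X → Finset (X × ℕ) := fun Z x =>
    gr (insert x (ξ Z x).support) (rnd M x (ξ Z x)) with hA
  have memA : ∀ Z x p, p ∈ A Z x ↔ 1 ≤ p.2 ∧ p.2 ≤ rnd M x (ξ Z x) p.1 := fun Z x p =>
    mem_gr (fun z hz => rnd_zero hz) p
  set S' : ℝ := max S 0 with hS'
  have hfinB : ∀ x : X, (Metric.closedBall x S').Finite := fun x => by
    obtain ⟨N, hN⟩ := hX S'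
    exact (hN x).1
  set T : X → Set (Finset (X × ℕ)) := fun x =>
    {B | (B : Set (X × ℕ)) ⊆ (Metric.closedBall x S') ×ˢ (Set.Icc 0 (M + 1))} with hT
  have hTfin : ∀ x, (T x).Finite := by
    intro x
    have h1 : ((Metric.closedBall x S') ×ˢ (Set.Icc 0 (M + 1))).Finite :=
      (hfinB x).prod (Set.finite_Icc _ _)
    refine Set.Finite.subset ((h1.toFinset.powerset).finite_toSet) ?_
    intro B hB
    rw [Finset.mem_coe, Finset.mem_powerset]
    intro p hp
    rw [Set.Finite.mem_toFinset]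
    exact hB hp
  have hle1 : ∀ Z : Finset X, ∀ x ∈ Z, ∀ z, ξ Z x z ≤ 1 := by
    intro Z x hx z
    rw [← hsum Z x hx]
    by_cases hz : z ∈ (ξ Z x).support
    · exact Finset.single_le_sum (f := fun z => ξ Z x z) (fun w _ => h0 Z x w) hz
    · rw [Finsupp.notMem_support_iff.1 hz]
      exact Finset.sum_nonneg fun w _ => h0 Z x w
  have hAT : ∀ Z : Finset X, ∀ x ∈ Z, A Z x ∈ T x := by
    intro Z x hx p hp
    have hp' := (memA Z x p).1 hp
    have hr : rnd M x (ξ Z x) p.1 ≠ 0 := by omega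
    refine ⟨?_, ?_⟩
    · rw [Metric.mem_closedBall]
      by_cases hpx : p.1 = x
      · rw [hpx, dist_self]; exact le_max_right _ _
      · refine le_max_of_le_left (hS Z x hx p.1 ?_)
        intro h3
        apply hr
        simp [rnd, hpx, h3]
    · refine ⟨Nat.zero_le _, hp'.2.trans ?_⟩
      have h4 : ⌊(M : ℝ) * ξ Z x p.1⌋₊ ≤ M := by
        have h5 : (M : ℝ) * ξ Z x p.1 ≤ M := by
          have := mul_le_mul_of_nonneg_left (hle1 Z x hx p.1) (Nat.cast_nonneg (α := ℝ) M)
          linarith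
        exact_mod_cast (Nat.floor_le_floor h5).trans (by rw [Nat.floor_natCast])
      simp only [rnd]
      split_ifs <;> omega
  set U : Ultrafilter (Finset X) := Ultrafilter.of Filter.atTop with hU
  have hUle : (U : Filter (Finset X)) ≤ Filter.atTop := Ultrafilter.of_le _
  have hmem : ∀ x : X, ∀ᶠ Z in (U : Filter (Finset X)), x ∈ Z := by
    intro x
    refine hUle ?_
    filter_upwards [Filter.eventually_ge_atTop {x}] with Z hZ
    exact hZ (Finset.mem_singleton_self x)
  have hlim : ∀ x : X, ∃ c ∈ T x, ∀ᶠ Z in (U : Filter (Finset X)), A Z x = c := by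
    intro x
    refine ultra_const U (fun Z => A Z x) (T x) (hTfin x) ?_
    filter_upwards [hmem x] with Z hZ
    exact hAT Z x hZ
  choose B hBT hB using hlim
  refine ⟨S', B, ?_, ?_, ?_⟩
  · intro x
    obtain ⟨Z, hZ⟩ := (hB x).exists
    rw [← hZ, memA]
    refine ⟨le_rfl, ?_⟩
    simp [rnd]
  · intro x p hp
    have := hBT x hp
    rw [Set.mem_prod, Metric.mem_closedBall] at this
    exact this.1
  · intro x y hxy
    obtain ⟨Z, hZx, hZy, hx, hy⟩ := ((hB x).and ((hB y).and ((hmem x).and (hmem y)))).exists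
    rw [← hZx, ← hZy]
    obtain ⟨e1, e2⟩ := main_est M V θ x y (ξ Z x) (ξ Z y) (h0 Z x) (h0 Z y) (hsum Z x hx)
      (hcard Z x hx) (hcard Z y hy) (hv Z x hx y hy hxy.le)
    refine lt_of_le_of_lt e1 (lt_of_lt_of_le ?_ (mul_le_mul_of_nonneg_left e2 hε0.le))
    have hMr : (0 : ℝ) ≤ M := Nat.cast_nonneg M
    have h6 : (M : ℝ) * θ ≤ M * (ε0 / 8) := mul_le_mul_of_nonneg_left hθ2 hMr
    have h7 : ε0 * (M * θ) ≤ ε0 * (M * (1 / 2)) :=
      mul_le_mul_of_nonneg_left (mul_le_mul_of_nonneg_left hθ1 hMr) hε0.le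
    nlinarith

theorem bl1 : BL1Stmt := by
  intro X _ hX R0 ε0 hR0 hε0
  refine ⟨min (1 / 4) (ε0 / 16), by positivity, (min_le_left _ _).trans (by norm_num), ?_⟩
  intro S F h
  rcases isEmpty_or_nonempty X with hE | ⟨⟨x0⟩⟩
  · exact ⟨0, fun x => hE.elim x, fun x => hE.elim x, fun x => hE.elim x, fun x => hE.elim x⟩
  · obtain ⟨S', hS'⟩ := P1_extend hR0 (by positivity) x0 F h
    refine yu_of_P1 hX hε0 ?_ ?_ hS'
    · have := min_le_left (1 / 4) (ε0 / 16)
      linarith
    · have := min_le_right (1 / 4) (ε0 / 16)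
      linarith

end Pool.Agent.H31.UQL
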