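import Pool.Agent.H9.UQL.Defs

/-!
# Project UQL, module NORM (helper31)

Everything in the closure of the star algebra generated by the quasi-local normalisers is a norm
limit of finite propagation operators.
-/

set_option autoImplicit false

namespace Pool.Agent.H31.UQL

open Pool.Agent.H9.UQL

noncomputable section

open Classical

variable {X : Type}

theorem single_self (x : X) (a : ℂ) : (lp.single 2 x a : l2 X) x = a :=
  lp.single_apply_self (E := fun _ : X => ℂ) 2 x a

theorem single_ne {x z : X} (a : ℂ) (h : z ≠ x) : (lp.single 2 x a : l2 X) z = 0 :=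
  lp.single_apply_ne (E := fun _ : X => ℂ) 2 x a h

theorem smul_app (a : ℂ) (v : l2 X) (z : X) : (a • v) z = a * v z := rfl

theorem single_smul_one (x : X) (a : ℂ) :
    (lp.single 2 x a : l2 X) = a • (lp.single 2 x (1 : ℂ) : l2 X) := by
  apply lp.ext
  funext z
  rw [smul_app]
  by_cases h : z = x
  · subst h; rw [single_self, single_self, mul_one]
  · rw [single_ne a h, single_ne (1 : ℂ) h, mul_zero]

/-- matrix multiplication -/
theorem entry_hasSum (T : l2 X →L[ℂ] l2 X) (v : l2 X) (y : X) :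
    HasSum (fun x => v x * (T (lp.single 2 x (1 : ℂ) : l2 X)) y) ((T v) y) := by
  have h1 := (lp.hasSum_single (p := 2) (E := fun _ : X => ℂ) (by simp) v).mapL
    ((lp.evalCLM ℂ (fun _ : X => ℂ) 2 y).comp T)
  have e : (fun x => ((lp.evalCLM ℂ (fun _ : X => ℂ) 2 y).comp T) (lp.single 2 x (v x) : l2 X)) =
      fun x => v x * (T (lp.single 2 x (1 : ℂ) : l2 X)) y := by
    funext x
    rw [single_smul_one, map_smul]
    rfl
  rw [e] at h1
  exact h1

theorem entry_star (T : l2 X →L[ℂ] l2 X) (x y : X) :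
    ((star T) (lp.single 2 y (1 : ℂ) : l2 X)) x =
      (starRingEnd ℂ) ((T (lp.single 2 x (1 : ℂ) : l2 X)) y) := by
  have h1 : inner ℂ (lp.single 2 x (1 : ℂ) : l2 X) ((star T) (lp.single 2 y (1 : ℂ) : l2 X)) =
      inner ℂ (T (lp.single 2 x (1 : ℂ) : l2 X)) (lp.single 2 y (1 : ℂ) : l2 X) := by
    rw [ContinuousLinearMap.star_eq_adjoint, ContinuousLinearMap.adjoint_inner_right]
  rw [lp.inner_single_left, lp.inner_single_right] at h1
  simpa using h1

/-- finite propagation operators -/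
def FP [MetricSpace X] (R : ℝ) (T : l2 X →L[ℂ] l2 X) : Prop :=
  ∀ x y : X, R < dist x y → (T (lp.single 2 y (1 : ℂ) : l2 X)) x = 0

theorem FP.mono [MetricSpace X] {R R' : ℝ} {T : l2 X →L[ℂ] l2 X} (h : FP R T) (hR : R ≤ R') :
    FP R' T := fun x y hxy => h x y (lt_of_le_of_lt hR hxy)

theorem FP.add [MetricSpace X] {R R' : ℝ} {S T : l2 X →L[ℂ] l2 X} (h : FP R S) (h' : FP R' T) :
    FP (max R R') (S + T) := by
  intro x y hxy
  have e : ((S + T) (lp.single 2 y (1 : ℂ) : l2 X)) x =
      (S (lp.single 2 y (1 : ℂ) : l2 X)) x + (T (lp.single 2 y (1 : ℂ) : l2 X)) x := rfl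
  rw [e, h x y (lt_of_le_of_lt (le_max_left _ _) hxy),
    h' x y (lt_of_le_of_lt (le_max_right _ _) hxy), add_zero]

theorem FP.mul [MetricSpace X] {R R' : ℝ} {S T : l2 X →L[ℂ] l2 X} (h : FP R S) (h' : FP R' T) :
    FP (R + R') (S * T) := by
  intro x y hxy
  have h1 := entry_hasSum S (T (lp.single 2 y (1 : ℂ) : l2 X)) x
  have e : (fun z => (T (lp.single 2 y (1 : ℂ) : l2 X)) z *
      (S (lp.single 2 z (1 : ℂ) : l2 X)) x) = fun _ => 0 := by
    funext z
    by_cases hz : R' < dist z y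
    · rw [h' z y hz, zero_mul]
    · rw [h x z (by have := dist_triangle x z y; linarith), mul_zero]
  rw [e] at h1
  exact h1.unique hasSum_zero

theorem FP.star [MetricSpace X] {R : ℝ} {T : l2 X →L[ℂ] l2 X} (h : FP R T) : FP R (star T) := by
  intro x y hxy
  rw [entry_star, h y x (by rwa [dist_comm]), map_zero]

theorem fp_algebraMap [MetricSpace X] (r : ℂ) :
    FP 0 (algebraMap ℂ (l2 X →L[ℂ] l2 X) r) := by
  intro x y hxy
  have hne : x ≠ y := dist_pos.1 hxy
  have e : ((algebraMap ℂ (l2 X →L[ℂ] l2 X) r) (lp.single 2 y (1 : ℂ) : l2 X)) =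
      r • (lp.single 2 y (1 : ℂ) : l2 X) := rfl
  rw [e, smul_app, single_ne (1 : ℂ) hne, mul_zero]

/-- the star algebra of finite propagation operators -/
def fpAlg (X : Type) [MetricSpace X] : StarSubalgebra ℂ (l2 X →L[ℂ] l2 X) where
  carrier := {T | ∃ R, FP R T}
  mul_mem' := by rintro S T ⟨R, h⟩ ⟨R', h'⟩; exact ⟨_, h.mul h'⟩
  add_mem' := by rintro S T ⟨R, h⟩ ⟨R', h'⟩; exact ⟨_, h.add h'⟩
  algebraMap_mem' r := ⟨0, fp_algebraMap r⟩
  star_mem' := by rintro T ⟨R, h⟩; exact ⟨_, h.star⟩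

/-! ### coordinate projections -/

theorem chi_mem (A : Set X) (v : l2 X) : Memℓp (fun x => if x ∈ A then v x else 0 : X → ℂ) 2 := by
  have hp : 0 < (2 : ENNReal).toReal := by simp
  have h := (memℓp_gen_iff hp).1 (lp.memℓp v)
  rw [memℓp_gen_iff hp]
  refine Summable.of_nonneg_of_le (fun x => by positivity) (fun x => ?_) h
  split_ifs
  · exact le_rfl
  · rw [norm_zero, Real.zero_rpow hp.ne']; positivity

/-- the coordinate projection -/
def chi (A : Set X) : l2 X →L[ℂ] l2 X :=
  LinearMap.mkContinuous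
    { toFun := fun v => ⟨fun x => if x ∈ A then v x else 0, chi_mem A v⟩
      map_add' := fun v w => by
        apply lp.ext; funext x
        change (if x ∈ A then (v + w) x else 0) = (if x ∈ A then v x else 0) + (if x ∈ A then w x else 0)
        split_ifs
        · rfl
        · rw [add_zero]
      map_smul' := fun c v => by
        apply lp.ext; funext x
        change (if x ∈ A then (c • v) x else 0) = c * (if x ∈ A then v x else 0)
        split_ifs
        · rfl
        · rw [mul_zero] } 1 (fun v => by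
    rw [one_mul]
    refine lp.norm_mono (by simp) fun x => ?_
    change ‖(if x ∈ A then v x else 0 : ℂ)‖ ≤ ‖v x‖
    split_ifs
    · exact le_rfl
    · rw [norm_zero]; exact norm_nonneg _)

theorem chi_apply (A : Set X) (v : l2 X) (x : X) : (chi A v) x = if x ∈ A then v x else 0 := rfl

theorem chi_single_mem {A : Set X} {x : X} (h : x ∈ A) :
    chi A (lp.single 2 x (1 : ℂ) : l2 X) = lp.single 2 x (1 : ℂ) := by
  apply lp.ext; funext z
  rw [chi_apply]
  by_cases hz : z = x
  · rw [if_pos (hz ▸ h)]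
  · rw [single_ne (1 : ℂ) hz]; simp

theorem chi_single_notMem {A : Set X} {x : X} (h : x ∉ A) :
    chi A (lp.single 2 x (1 : ℂ) : l2 X) = 0 := by
  apply lp.ext; funext z
  rw [chi_apply]
  by_cases hz : z = x
  · rw [if_neg (hz ▸ h)]; rfl
  · rw [single_ne (1 : ℂ) hz]; simp

theorem chi_diag (A : Set X) (x y : X) (h : x ≠ y) :
    (chi A (lp.single 2 x (1 : ℂ) : l2 X)) y = 0 := by
  rw [chi_apply, single_ne (1 : ℂ) h.symm]; simp

/-! ### normalisers -/

/-- `n P_x m` -/
theorem sandwich_entry (S T : l2 X →L[ℂ] l2 X) (x z y : X) :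
    ((S * chi {x} * T) (lp.single 2 z (1 : ℂ) : l2 X)) y =
      (T (lp.single 2 z (1 : ℂ) : l2 X)) x * (S (lp.single 2 x (1 : ℂ) : l2 X)) y := by
  have e : ((S * chi {x} * T) (lp.single 2 z (1 : ℂ) : l2 X)) =
      S (chi {x} (T (lp.single 2 z (1 : ℂ) : l2 X))) := rfl
  have e2 : ∀ v : l2 X, chi {x} v = v x • (lp.single 2 x (1 : ℂ) : l2 X) := by
    intro v
    apply lp.ext; funext w
    rw [chi_apply, smul_app]
    by_cases hw : w = x
    · subst hw
      rw [if_pos (Set.mem_singleton w), single_self, mul_one]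
    · rw [if_neg (by rwa [Set.mem_singleton_iff]), single_ne (1 : ℂ) hw, mul_zero]
  rw [e, e2, map_smul, smul_app]

theorem column_one [MetricSpace X] {n : l2 X →L[ℂ] l2 X} (hn : n ∈ normSet X) {x y y' : X}
    (hy : (n (lp.single 2 x (1 : ℂ) : l2 X)) y ≠ 0)
    (hy' : (n (lp.single 2 x (1 : ℂ) : l2 X)) y' ≠ 0) : y = y' := by
  by_contra hne
  have h1 := (hn.2 (chi {x}) (chi_diag {x})).1 y' y (Ne.symm hne)
  rw [sandwich_entry, entry_star] at h1
  rcases mul_eq_zero.1 h1 with h | h
  · exact hy' ((map_eq_zero _).1 h)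
  · exact hy h

theorem row_one [MetricSpace X] {n : l2 X →L[ℂ] l2 X} (hn : n ∈ normSet X) {x x' y : X}
    (hx : (n (lp.single 2 x (1 : ℂ) : l2 X)) y ≠ 0)
    (hx' : (n (lp.single 2 x' (1 : ℂ) : l2 X)) y ≠ 0) : x = x' := by
  by_contra hne
  have h1 := (hn.2 (chi {y}) (chi_diag {y})).2 x' x (Ne.symm hne)
  rw [sandwich_entry, entry_star] at h1
  rcases mul_eq_zero.1 h1 with h | h
  · exact hx' h
  · exact hx ((map_eq_zero _).1 h)

theorem norm_single_one (x : X) : ‖(lp.single 2 x (1 : ℂ) : l2 X)‖ = 1 := by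
  rw [lp.norm_single (by simp)]; simp

theorem entry_small [MetricSpace X] {n : l2 X →L[ℂ] l2 X} (hn : QLoc n) {ε : ℝ} (hε : 0 < ε) :
    ∃ R : ℝ, ∀ x y : X, R < dist y x → ‖(n (lp.single 2 x (1 : ℂ) : l2 X)) y‖ ≤ ε := by
  obtain ⟨R, _, hR⟩ := hn ε hε
  refine ⟨R, fun x y hxy => ?_⟩
  have h := hR {y} {x} (by rintro _ rfl _ rfl; exact hxy) (lp.single 2 x (1 : ℂ))
    (lp.single 2 y (1 : ℂ)) (fun z hz => single_ne (1 : ℂ) hz)
    (fun z hz => single_ne (1 : ℂ) hz)
  rw [lp.inner_single_left, norm_single_one, norm_single_one] at h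
  simpa using h

theorem norm_approx [MetricSpace X] {n : l2 X →L[ℂ] l2 X} (hn : n ∈ normSet X) {ε : ℝ}
    (hε : 0 < ε) : ∃ (R : ℝ) (n' : l2 X →L[ℂ] l2 X), FP R n' ∧ ‖n - n'‖ ≤ ε := by
  obtain ⟨R, hR⟩ := entry_small hn.1 hε
  set A : Set X := {x | ∀ y, (n (lp.single 2 x (1 : ℂ) : l2 X)) y ≠ 0 → dist y x ≤ R} with hA
  refine ⟨R, n * chi A, ?_, ?_⟩
  · intro y x hyx
    have e : ((n * chi A) (lp.single 2 x (1 : ℂ) : l2 X)) =
      n (chi A (lp.single 2 x (1 : ℂ) : l2 X)) := rfl
    rw [e]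
    by_cases hx : x ∈ A
    · rw [chi_single_mem hx]
      by_contra h
      exact absurd (hx y h) (not_le.2 hyx)
    · rw [chi_single_notMem hx, map_zero]; rfl
  · have hp : 0 < (2 : ENNReal).toReal := by simp
    refine ContinuousLinearMap.opNorm_le_bound _ hε.le fun v => ?_
    refine lp.norm_le_of_forall_sum_le hp (by positivity) fun F => ?_
    set w : l2 X := (n - n * chi A) v with hw
    have hent : ∀ y, HasSum (fun x => (if x ∈ A then 0 else v x) *
        (n (lp.single 2 x (1 : ℂ) : l2 X)) y) (w y) := by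
      intro y
      have h1 := entry_hasSum (n - n * chi A) v y
      have ee : (fun x => v x * ((n - n * chi A) (lp.single 2 x (1 : ℂ) : l2 X)) y) =
          fun x => (if x ∈ A then 0 else v x) * (n (lp.single 2 x (1 : ℂ) : l2 X)) y := by
        funext x
        have e : ((n - n * chi A) (lp.single 2 x (1 : ℂ) : l2 X)) y =
          (n (lp.single 2 x (1 : ℂ) : l2 X)) y -
            (n (chi A (lp.single 2 x (1 : ℂ) : l2 X))) y := rfl
        rw [e]
        by_cases hx : x ∈ A
        · rw [chi_single_mem hx, sub_self, mul_zero, if_pos hx, zero_mul]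
        · rw [chi_single_notMem hx, map_zero, if_neg hx]
          change v x * (_ - (0 : ℂ)) = _
          rw [sub_zero]
      rw [ee] at h1
      exact h1
    have hval : ∀ y, w y ≠ 0 → ∃ x, ‖w y‖ ≤ ε * ‖v x‖ ∧
        (n (lp.single 2 x (1 : ℂ) : l2 X)) y ≠ 0 := by
      intro y hy
      have h2 : ∃ x, (if x ∈ A then 0 else v x) * (n (lp.single 2 x (1 : ℂ) : l2 X)) y ≠ 0 := by
        by_contra hcon
        push Not at hcon
        have h3 := hent y
        rw [funext hcon] at h3
        exact hy (h3.unique hasSum_zero)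
      obtain ⟨x, hx⟩ := h2
      have hnx := right_ne_zero_of_mul hx
      have hxA : x ∉ A := by
        intro h
        rw [if_pos h, zero_mul] at hx
        exact hx rfl
      have h4 : w y = v x * (n (lp.single 2 x (1 : ℂ) : l2 X)) y := by
        refine (hent y).unique ?_
        have h5 := hasSum_single x (f := fun x => (if x ∈ A then 0 else v x) *
          (n (lp.single 2 x (1 : ℂ) : l2 X)) y) (fun x' hx' => by
            by_contra h6
            exact hx' (row_one hn (right_ne_zero_of_mul h6) hnx))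
        rwa [if_neg hxA] at h5
      refine ⟨x, ?_, hnx⟩
      rw [h4, norm_mul, mul_comm]
      refine mul_le_mul_of_nonneg_right (hR x y ?_) (norm_nonneg _)
      simp only [hA, Set.mem_ofPred_eq] at hxA
      push Not at hxA
      obtain ⟨y', hy', hd⟩ := hxA
      rw [column_one hn hnx hy']
      exact hd
    choose! g hg1 hg2 using hval
    have hnorm2 : (2 : ENNReal).toReal = 2 := by simp
    rw [← Finset.sum_filter_add_sum_filter_not F (fun y => w y ≠ 0)]
    have hz : ∑ y ∈ F with ¬ w y ≠ 0, ‖w y‖ ^ (2 : ENNReal).toReal = 0 := by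
      refine Finset.sum_eq_zero fun y hy => ?_
      rw [Finset.mem_filter, not_not] at hy
      rw [hy.2, norm_zero, Real.zero_rpow hp.ne']
    rw [hz, add_zero]
    have hinj : Set.InjOn g (F.filter fun y => w y ≠ 0) := by
      intro y hy y' hy' hgg
      rw [Finset.mem_coe, Finset.mem_filter] at hy hy'
      have h7 := hg2 y hy.2
      rw [hgg] at h7
      exact column_one hn h7 (hg2 y' hy'.2)
    calc ∑ y ∈ F with w y ≠ 0, ‖w y‖ ^ (2 : ENNReal).toReal
        ≤ ∑ y ∈ F with w y ≠ 0, (ε * ‖v (g y)‖) ^ (2 : ENNReal).toReal := by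
          refine Finset.sum_le_sum fun y hy => ?_
          rw [Finset.mem_filter] at hy
          exact Real.rpow_le_rpow (norm_nonneg _) (hg1 y hy.2) hp.le
      _ = ∑ x ∈ (F.filter fun y => w y ≠ 0).image g, (ε * ‖v x‖) ^ (2 : ENNReal).toReal := by
          rw [Finset.sum_image hinj]
      _ = ε ^ (2 : ENNReal).toReal *
          ∑ x ∈ (F.filter fun y => w y ≠ 0).image g, ‖v x‖ ^ (2 : ENNReal).toReal := by
          rw [Finset.mul_sum]
          exact Finset.sum_congr rfl fun x _ => Real.mul_rpow hε.le (norm_nonneg _)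
      _ ≤ ε ^ (2 : ENNReal).toReal * ‖v‖ ^ (2 : ENNReal).toReal := by
          refine mul_le_mul_of_nonneg_left (lp.sum_rpow_le_norm_rpow hp v _) (by positivity)
      _ = (ε * ‖v‖) ^ (2 : ENNReal).toReal := (Real.mul_rpow hε.le (norm_nonneg _)).symm

theorem norm : NormStmt := by
  intro X _ T hT δ hδ
  have h1 : StarAlgebra.adjoin ℂ (normSet X) ≤ (fpAlg X).topologicalClosure := by
    rw [StarAlgebra.adjoin_le_iff]
    intro n hn
    rw [StarSubalgebra.topologicalClosure_coe, Metric.mem_closure_iff]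
    intro ε hε
    obtain ⟨R, n', h, h'⟩ := norm_approx hn (half_pos hε)
    refine ⟨n', ⟨R, h⟩, ?_⟩
    rw [dist_eq_norm]
    linarith
  have h2 : T ∈ closure ((fpAlg X : Set (l2 X →L[ℂ] l2 X))) := by
    have h3 : closure ((StarAlgebra.adjoin ℂ (normSet X) : Set (l2 X →L[ℂ] l2 X))) ⊆
        closure ((fpAlg X : Set (l2 X →L[ℂ] l2 X))) := by
      refine closure_minimal ?_ isClosed_closure
      intro S hS
      have := h1 hS
      rwa [← SetLike.mem_coe, StarSubalgebra.topologicalClosure_coe] at this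
    exact h3 hT
  rw [Metric.mem_closure_iff] at h2
  obtain ⟨T', ⟨R, hR⟩, hd⟩ := h2 δ hδ
  refine ⟨R, T', hR, ?_⟩
  rw [← dist_eq_norm]
  exact hd.le

end

end Pool.Agent.H31.UQL
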